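import Pool.Agent.H854R3.CR.Stmts2

/-!
A graded ideal generated by few relations together with a functional vanishing on the
consequences of the relations.
-/

set_option autoImplicit false

namespace Pool.Agent.H787R3.CR

open Pool.Agent.H854R3.CR Pool.Agent.Helper824.GS Module

noncomputable abbrev V' (n : ℕ) : Submodule (ZMod 2) F := V (ZMod 2) (Fin 2) n
noncomputable abbrev pr' (n : ℕ) : F →ₗ[ZMod 2] F := pr (ZMod 2) (Fin 2) n

theorem coeff_pr (n : ℕ) (f : F) (w : W2) :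
    (pr' n f).coeff w = if w.length = n then f.coeff w else 0 := by
  classical
  induction f using FA_induction with
  | h0 => simp
  | hadd f g hf hg =>
    rw [map_add, MonoidAlgebra.coeff_add, MonoidAlgebra.coeff_add, Finsupp.add_apply,
      Finsupp.add_apply, hf, hg]
    split_ifs <;> simp
  | hsmul c f hf =>
    rw [map_smul, MonoidAlgebra.coeff_smul, MonoidAlgebra.coeff_smul, Finsupp.smul_apply,
      Finsupp.smul_apply, hf]
    split_ifs <;> simp
  | hmon w' =>
    rw [pr_mon]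
    by_cases h1 : w' = w
    · subst h1
      split_ifs <;> simp
    · have h2 : (mon w' : F).coeff w = 0 := by
        unfold mon
        rw [MonoidAlgebra.coeff_single, Finsupp.single_apply, if_neg h1]
      split_ifs <;> simp [h2]

theorem pr_eq_zero {M : ℕ} {f : F} (hf : GeF M f) {n : ℕ} (hn : n < M) : pr' n f = 0 := by
  apply MonoidAlgebra.ext
  ext w
  rw [coeff_pr]
  split_ifs with h
  · by_contra hcon
    have := hf w hcon
    omega
  · rfl

theorem exists_bound (f : F) : ∃ N, ∀ n, N ≤ n → pr' n f = 0 := by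
  obtain ⟨N, hN⟩ := exists_sum_pr (ZMod 2) (Fin 2) f
  refine ⟨N, fun n hn => ?_⟩
  have h1 := hN n hn
  have h2 := hN (n + 1) (by omega)
  rw [Finset.sum_range_succ, ← h1] at h2
  exact left_eq_add.1 h2

theorem sum_le' {ι : Type} {s : Finset ι} {f : ι → Submodule (ZMod 2) F}
    (h : ∀ i ∈ s, f i = ⊥) : ∑ i ∈ s, f i = ⊥ := by
  rw [Finset.sum_congr rfl h]
  exact Finset.sum_const_zero

theorem Idl_congr {R R' : ℕ → Submodule (ZMod 2) F} (n : ℕ) (h : ∀ j, j ≤ n → R j = R' j) :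
    Idl R n = Idl R' n := by
  induction n with
  | zero => rfl
  | succ n ih =>
    rw [Idl, Idl, ih fun j hj => h j (by omega)]
    congr 1
    refine Finset.sum_congr rfl fun i hi => ?_
    rw [Finset.mem_range] at hi
    rw [h (i + 1) (by omega)]

theorem Idl_bot {R : ℕ → Submodule (ZMod 2) F} (n : ℕ) (h : ∀ j, j ≤ n → R j = ⊥) :
    Idl R n = ⊥ := by
  induction n with
  | zero => rfl
  | succ n ih =>
    rw [Idl, ih fun j hj => h j (by omega), Submodule.bot_mul, sum_le', Submodule.add_eq_sup,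
      bot_sup_eq]
    intro i hi
    rw [Finset.mem_range] at hi
    rw [h (i + 1) (by omega), Submodule.mul_bot]

/-- the recursive construction of the markers -/
noncomputable def seq (pick : (ℕ → W2) → ℕ → W2) : ℕ → ℕ → W2
  | 0 => fun _ => 1
  | n + 1 => Function.update (seq pick n) n (pick (seq pick n) n)

theorem seq_lt (pick : (ℕ → W2) → ℕ → W2) (n j : ℕ) (h : j < n) :
    seq pick n j = seq pick (j + 1) j := by
  induction n with
  | zero => omega
  | succ n ih =>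
    rcases Nat.lt_succ_iff_lt_or_eq.1 h with h | rfl
    · rw [seq, Function.update_of_ne h.ne, ih h]
    · rfl

theorem exists_markers (Q : (ℕ → W2) → ℕ → W2 → Prop) (hQ : ∀ v n, ∃ w, Q v n w) :
    ∃ u : ℕ → W2, ∀ n, ∃ v : ℕ → W2, (∀ j, j < n → v j = u j) ∧ Q v n (u n) := by
  choose pick hpick using hQ
  refine ⟨fun j => seq pick (j + 1) j, fun n => ⟨seq pick n, fun j hj => seq_lt pick n j hj, ?_⟩⟩
  show Q (seq pick n) n (seq pick (n + 1) n)
  rw [seq, Function.update_self]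
  exact hpick _ _

/-- the increasing sequence of degrees -/
noncomputable def Ms (b : ℕ → ℕ → ℕ) : ℕ → ℕ
  | 0 => 10
  | i + 1 => Ms b i + b i (Ms b i) + 1

theorem exists_degrees (ρ σ : ℕ → ℕ → F) :
    ∃ (M : ℕ → ℕ), (∀ i, 10 ≤ M i) ∧ (∀ i, M i < M (i + 1)) ∧
      ∀ i n, M (i + 1) ≤ n → pr' n (ρ i (M i)) = 0 ∧ pr' n (σ i (M i)) = 0 := by
  have h : ∀ i m, ∃ N, ∀ n, N ≤ n → pr' n (ρ i m) = 0 ∧ pr' n (σ i m) = 0 := by
    intro i m
    obtain ⟨N, hN⟩ := exists_bound (ρ i m)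
    obtain ⟨N', hN'⟩ := exists_bound (σ i m)
    exact ⟨N + N', fun n hn => ⟨hN n (by omega), hN' n (by omega)⟩⟩
  choose b hb using h
  refine ⟨Ms b, ?_, ?_, ?_⟩
  · intro i
    induction i with
    | zero => exact le_rfl
    | succ i ih =>
      rw [Ms]
      omega
  · intro i
    rw [Ms]
    omega
  · intro i n hn
    rw [Ms] at hn
    exact hb i (Ms b i) n (by omega)

theorem exists_idx (M : ℕ → ℕ) (hM : ∀ i, M i < M (i + 1)) :
    ∃ idx : ℕ → ℕ, ∀ i n, M i ≤ n → n < M (i + 1) → idx n = i := by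
  classical
  have hmono : StrictMono M := strictMono_nat_of_lt_succ hM
  refine ⟨fun n => if h : ∃ i, M i ≤ n ∧ n < M (i + 1) then h.choose else 0, ?_⟩
  intro i n h1 h2
  have h : ∃ i, M i ≤ n ∧ n < M (i + 1) := ⟨i, h1, h2⟩
  show (if h : ∃ i, M i ≤ n ∧ n < M (i + 1) then h.choose else 0) = i
  rw [dif_pos h]
  obtain ⟨h3, h4⟩ := h.choose_spec
  have h5 : M h.choose < M (i + 1) := lt_of_le_of_lt h3 h2
  have h6 : M i < M (h.choose + 1) := lt_of_le_of_lt h1 h4
  have h7 := hmono.lt_iff_lt.1 h5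
  have h8 := hmono.lt_iff_lt.1 h6
  omega

/-- at most two relations in each degree containing the given ones -/
theorem exists_S (ρ σ : ℕ → ℕ → F) (hρσ : ∀ i M, GeF M (ρ i M) ∧ GeF M (σ i M)) :
    ∃ (M : ℕ → ℕ) (S : ℕ → Submodule (ZMod 2) F), (∀ i, 10 ≤ M i) ∧ (∀ n, S n ≤ V' n) ∧
      (∀ n, n < 10 → S n = ⊥) ∧ (∀ n, finrank (ZMod 2) (S n) ≤ 2) ∧
      ∀ i n, pr' n (ρ i (M i)) ∈ S n ∧ pr' n (σ i (M i)) ∈ S n := by
  classical
  obtain ⟨M, hM1, hM2, hM3⟩ := exists_degrees ρ σ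
  obtain ⟨idx, hidx⟩ := exists_idx M hM2
  refine ⟨M, fun n => Submodule.span (ZMod 2)
    (↑({pr' n (ρ (idx n) (M (idx n))), pr' n (σ (idx n) (M (idx n)))} : Finset F) : Set F),
    hM1, ?_, ?_, ?_, ?_⟩
  · intro n
    rw [Submodule.span_le]
    intro x hx
    simp only [Finset.coe_insert, Finset.coe_singleton, Set.mem_insert_iff,
      Set.mem_singleton_iff] at hx
    rcases hx with rfl | rfl
    · exact pr_mem _ _ _ _
    · exact pr_mem _ _ _ _
  · intro n hn
    rw [Submodule.span_eq_bot]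
    intro x hx
    simp only [Finset.coe_insert, Finset.coe_singleton, Set.mem_insert_iff,
      Set.mem_singleton_iff] at hx
    have h1 : n < M (idx n) := lt_of_lt_of_le hn (hM1 _)
    rcases hx with rfl | rfl
    · exact pr_eq_zero (hρσ _ _).1 h1
    · exact pr_eq_zero (hρσ _ _).2 h1
  · intro n
    refine (finrank_span_finset_le_card _).trans ?_
    exact Finset.card_le_two
  · intro i n
    by_cases h1 : n < M i
    · rw [pr_eq_zero (hρσ _ _).1 h1, pr_eq_zero (hρσ _ _).2 h1]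
      exact ⟨zero_mem _, zero_mem _⟩
    · by_cases h2 : n < M (i + 1)
      · have h3 := hidx i n (not_lt.1 h1) h2
        simp only [h3]
        exact ⟨Submodule.subset_span (by simp), Submodule.subset_span (by simp)⟩
      · rw [(hM3 i n (not_lt.1 h2)).1, (hM3 i n (not_lt.1 h2)).2]
        exact ⟨zero_mem _, zero_mem _⟩

/-- relations before the degree `n` marker -/
noncomputable def RelB (S : ℕ → Submodule (ZMod 2) F) (v : ℕ → W2) (n : ℕ) (j : ℕ) :
    Submodule (ZMod 2) F :=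
  S j ⊔ (if 10 ≤ j ∧ j < n then Submodule.span (ZMod 2) {pr' j (mon (v j))} else ⊥)

theorem RelB_le {S : ℕ → Submodule (ZMod 2) F} (hS : ∀ n, S n ≤ V' n) (v : ℕ → W2) (n j : ℕ) :
    RelB S v n j ≤ V' j := by
  unfold RelB
  refine sup_le (hS j) ?_
  split_ifs
  · rw [Submodule.span_le, Set.singleton_subset_iff]
    exact pr_mem _ _ _ _
  · exact bot_le

theorem geom_bound (n : ℕ) :
    1 + ∑ i ∈ Finset.range n, (((if 10 ≤ i + 1 then 3 else 0 : ℕ) : ℕ) : ℝ) * (2 / 3 : ℝ) ^ (i + 1) ≤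
      (Fintype.card (Fin 2) : ℝ) * (2 / 3) := by
  have h : ∀ n : ℕ, ∑ i ∈ Finset.range (n + 9),
      (((if 10 ≤ i + 1 then 3 else 0 : ℕ) : ℕ) : ℝ) * (2 / 3 : ℝ) ^ (i + 1) =
      9 * (2 / 3 : ℝ) ^ 10 * (1 - (2 / 3 : ℝ) ^ n) := by
    intro n
    induction n with
    | zero =>
      rw [Finset.sum_eq_zero]
      · simp
      · intro i hi
        rw [Finset.mem_range] at hi
        rw [if_neg (by omega)]
        simp
    | succ n ih =>
      have e : n + 1 + 9 = (n + 9) + 1 := by omega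
      rw [e, Finset.sum_range_succ, ih, if_pos (by omega)]
      rw [show n + 9 + 1 = n + 10 by omega, pow_add, pow_succ (2 / 3 : ℝ) n]
      push_cast
      ring
  have h2 : ∑ i ∈ Finset.range n,
      (((if 10 ≤ i + 1 then 3 else 0 : ℕ) : ℕ) : ℝ) * (2 / 3 : ℝ) ^ (i + 1) ≤
      ∑ i ∈ Finset.range (n + 9),
      (((if 10 ≤ i + 1 then 3 else 0 : ℕ) : ℕ) : ℝ) * (2 / 3 : ℝ) ^ (i + 1) := by
    apply Finset.sum_le_sum_of_subset_of_nonneg
    · intro i hi
      rw [Finset.mem_range] at *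
      omega
    · intro i _ _
      positivity
  rw [h] at h2
  have h3 : (0 : ℝ) ≤ (2 / 3 : ℝ) ^ n := by positivity
  have h4 : 9 * (2 / 3 : ℝ) ^ 10 * (1 - (2 / 3 : ℝ) ^ n) ≤ 9 * (2 / 3 : ℝ) ^ 10 := by
    have : (0 : ℝ) ≤ 9 * (2 / 3 : ℝ) ^ 10 * (2 / 3 : ℝ) ^ n := by positivity
    nlinarith
  have h5 : 9 * (2 / 3 : ℝ) ^ 10 ≤ 1 / 3 := by norm_num
  rw [Fintype.card_fin, Nat.cast_ofNat]
  linarith

theorem exists_word {S : ℕ → Submodule (ZMod 2) F} (hS : ∀ n, S n ≤ V' n)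
    (hS0 : ∀ n, n < 10 → S n = ⊥) (hS2 : ∀ n, finrank (ZMod 2) (S n) ≤ 2) (v : ℕ → W2) (n : ℕ) :
    ∃ w : W2, w.length = n ∧ (mon w : F) ∉ Idl (RelB S v n) n := by
  apply exists_mon_notMem (RelB_le hS v n) (fun i => if 10 ≤ i then 3 else 0) ?_ (2 / 3)
    (by norm_num) geom_bound n
  intro i
  have : FiniteDimensional (ZMod 2) (S i) := Submodule.finiteDimensional_of_le (hS i)
  unfold RelB
  by_cases h : 10 ≤ i
  · rw [if_pos h]
    obtain ⟨T, hT⟩ : ∃ T : Submodule (ZMod 2) F, T = if 10 ≤ i ∧ i < n then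
        Submodule.span (ZMod 2) {pr' i (mon (v i))} else ⊥ := ⟨_, rfl⟩
    have h2 : FiniteDimensional (ZMod 2) T ∧ finrank (ZMod 2) T ≤ 1 := by
      by_cases h3 : 10 ≤ i ∧ i < n
      · rw [if_pos h3] at hT
        rw [hT]
        exact ⟨inferInstance, (finrank_span_le_card _).trans (by simp)⟩
      · rw [if_neg h3] at hT
        rw [hT]
        exact ⟨inferInstance, by rw [finrank_bot]; exact Nat.zero_le _⟩
    obtain ⟨h2, h3⟩ := h2
    rw [← hT]
    refine (Submodule.finrank_add_le_finrank_add_finrank _ _).trans ?_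
    exact Nat.add_le_add (hS2 i) h3
  · rw [if_neg h, if_neg (fun h' => h h'.1), hS0 i (by omega), sup_bot_eq, finrank_bot]

theorem exists_functional {L : Submodule (ZMod 2) F} {x : F} (hx : x ∉ L) :
    ∃ l : F →ₗ[ZMod 2] ZMod 2, (∀ y ∈ L, l y = 0) ∧ l x = 1 := by
  obtain ⟨f, hf, hL⟩ := Submodule.exists_le_ker_of_notMem hx
  refine ⟨(f x)⁻¹ • f, ?_, ?_⟩
  · intro y hy
    rw [LinearMap.smul_apply, LinearMap.mem_ker.1 (hL hy), smul_zero]
  · rw [LinearMap.smul_apply, smul_eq_mul, inv_mul_cancel₀ hf]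

/-- the functional given by the functionals `lam n` in degree `n` -/
theorem exists_glue (lam : ℕ → F →ₗ[ZMod 2] ZMod 2) :
    ∃ ℓ : F →ₗ[ZMod 2] ZMod 2, ∀ n, ∀ f ∈ V' n, ℓ f = lam n f := by
  refine ⟨(MonoidAlgebra.basis (FreeMonoid (Fin 2)) (ZMod 2)).constr (ZMod 2)
    (fun w => lam w.length (mon w)), ?_⟩
  intro n f hf
  unfold V' V at hf
  induction hf using Submodule.span_induction with
  | mem x h =>
    obtain ⟨w, hw, rfl⟩ := h
    simp only [Set.mem_ofPred_eq] at hw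
    have := (MonoidAlgebra.basis (FreeMonoid (Fin 2)) (ZMod 2)).constr_basis (ZMod 2)
      (fun w => lam w.length (mon w)) w
    rw [MonoidAlgebra.basis_apply] at this
    refine this.trans ?_
    show lam w.length (mon w) = _
    rw [hw]
  | zero => rw [map_zero, map_zero]
  | add x y _ _ hx hy => rw [map_add, map_add, hx, hy]
  | smul a x _ hx => rw [map_smul, map_smul, hx]

theorem apply_eq_zero (ℓ : F →ₗ[ZMod 2] ZMod 2) (f : F) (h : ∀ n, ℓ (pr' n f) = 0) :
    ℓ f = 0 := by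
  obtain ⟨N, hN⟩ := exists_sum_pr (ZMod 2) (Fin 2) f
  rw [hN N le_rfl, map_sum]
  exact Finset.sum_eq_zero fun n _ => h n

theorem mem_of_pr (I : Submodule (ZMod 2) F) (f : F) (h : ∀ n, pr' n f ∈ I) : f ∈ I := by
  obtain ⟨N, hN⟩ := exists_sum_pr (ZMod 2) (Fin 2) f
  rw [hN N le_rfl]
  exact sum_mem fun n _ => h n

theorem taskGS : TaskGS := by
  classical
  intro ρ σ hρσ
  obtain ⟨M, S, hM, hS, hS0, hS2, hSm⟩ := exists_S ρ σ hρσ
  obtain ⟨u, hu⟩ := exists_markers
    (fun v n w => w.length = n ∧ (mon w : F) ∉ Idl (RelB S v n) n)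
    (fun v n => exists_word hS hS0 hS2 v n)
  -- the relations
  obtain ⟨Rel, hRel⟩ : ∃ Rel : ℕ → Submodule (ZMod 2) F, Rel = fun n =>
      S n ⊔ (if 10 ≤ n then Submodule.span (ZMod 2) {pr' n (mon (u n))} else ⊥) := ⟨_, rfl⟩
  have hRelV : ∀ n, Rel n ≤ V' n := by
    intro n
    rw [hRel]
    refine sup_le (hS n) ?_
    split_ifs
    · rw [Submodule.span_le, Set.singleton_subset_iff]
      exact pr_mem _ _ _ _
    · exact bot_le
  have hRel0 : ∀ n, n < 10 → Rel n = ⊥ := by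
    intro n hn
    rw [hRel]
    show S n ⊔ _ = ⊥
    rw [if_neg (by omega), hS0 n hn, sup_bot_eq]
  have hlen : ∀ n, (u n).length = n := fun n => by
    obtain ⟨v, -, h, -⟩ := hu n
    exact h
  -- the ideal below the marker
  have hB : ∀ n, ∃ R' : ℕ → Submodule (ZMod 2) F, (∀ j, j < n → R' j = Rel j) ∧ R' n = S n ∧
      (mon (u n) : F) ∉ Idl R' n := by
    intro n
    obtain ⟨v, hv1, -, hv2⟩ := hu n
    refine ⟨RelB S v n, ?_, ?_, hv2⟩
    · intro j hj
      rw [hRel]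
      unfold RelB
      rw [hv1 j hj]
      congr 1
      by_cases h : 10 ≤ j
      · rw [if_pos ⟨h, hj⟩, if_pos h]
      · rw [if_neg (fun h' => h h'.1), if_neg h]
    · unfold RelB
      rw [if_neg (fun h' => lt_irrefl _ h'.2), sup_bot_eq]
  choose R' hR1 hR2 hR3 using hB
  choose lam hlam1 hlam2 using fun n => exists_functional (hR3 n)
  obtain ⟨ℓ, hℓ⟩ := exists_glue lam
  have hgen : ∀ n, 1 ≤ n → ∀ x ∈ S n, x ∈ Jsub Rel ∧ ℓ x = 0 := by
    intro n hn x hx
    refine ⟨R_le_Jsub hn ?_, ?_⟩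
    · rw [hRel]
      exact Submodule.mem_sup_left hx
    · rw [hℓ n x (hS n hx)]
      apply hlam1
      have h1 := V_mul_R (R := R' n) 0 n hn
      rw [V_zero, one_mul, zero_add, hR2] at h1
      exact h1 hx
  have hprod1 : ∀ p q, 1 ≤ p → ∀ x ∈ V' p, ∀ y ∈ Idl Rel q, ℓ (x * y) = 0 := by
    intro p q hp x hx y hy
    have h1 : x * y ∈ V' (p + q) :=
      (V_mul_V (ZMod 2) (Fin 2) p q).le (Submodule.mul_mem_mul hx (Idl_le_V hRelV q hy))
    rw [hℓ _ _ h1]
    apply hlam1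
    apply V_mul_Idl p q
    refine Submodule.mul_mem_mul hx ?_
    rw [Idl_congr q fun j hj => hR1 (p + q) j (by omega)]
    exact hy
  have hprod2 : ∀ p q, 1 ≤ p → ∀ x ∈ V' p, ∀ y ∈ Idl Rel q, ℓ (y * x) = 0 := by
    intro p q hp x hx y hy
    have h1 : y * x ∈ V' (q + p) :=
      (V_mul_V (ZMod 2) (Fin 2) q p).le (Submodule.mul_mem_mul (Idl_le_V hRelV q hy) hx)
    rw [hℓ _ _ h1]
    apply hlam1
    apply Idl_mul_V q p
    refine Submodule.mul_mem_mul ?_ hx
    rw [Idl_congr q fun j hj => hR1 (q + p) j (by omega)]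
    exact hy
  refine ⟨Jsub Rel, ℓ, ?_, ?_, ?_, ?_⟩
  · intro f hf w hw
    by_contra hcon
    have h1 := pr_mem_Idl hRelV hf w.length
    rw [Idl_bot w.length fun j hj => hRel0 j (by omega), Submodule.mem_bot] at h1
    have h2 := coeff_pr w.length f w
    rw [if_pos rfl] at h2
    have h3 : (pr' w.length f).coeff w = 0 := by
      rw [show pr' w.length f = 0 from h1]
      rfl
    exact hw (h2.symm.trans h3)
  · intro f hf g hg
    refine ⟨mul_mem_Jsub_left g hf, mul_mem_Jsub_right g hf, ?_, ?_⟩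
    · apply apply_eq_zero
      intro n
      rw [pr_mul, map_sum]
      refine Finset.sum_eq_zero fun p _ => ?_
      rcases Nat.eq_zero_or_pos p.1 with h | h
      · rw [h, show pr (ZMod 2) (Fin 2) 0 g = 0 from pr_eq_zero hg (by omega), zero_mul, map_zero]
      · exact hprod1 p.1 p.2 h _ (pr_mem _ _ _ _) _ (pr_mem_Idl hRelV hf _)
    · apply apply_eq_zero
      intro n
      rw [pr_mul, map_sum]
      refine Finset.sum_eq_zero fun p _ => ?_
      rcases Nat.eq_zero_or_pos p.2 with h | h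
      · rw [h, show pr (ZMod 2) (Fin 2) 0 g = 0 from pr_eq_zero hg (by omega), mul_zero, map_zero]
      · exact hprod2 p.2 p.1 h _ (pr_mem _ _ _ _) _ (pr_mem_Idl hRelV hf _)
  · intro n
    refine ⟨mon (u (n + 10)), ?_, ?_, ?_⟩
    · refine R_le_Jsub (n := n + 10) (by omega) ?_
      rw [hRel]
      refine Submodule.mem_sup_right ?_
      rw [if_pos (by omega)]
      refine Submodule.subset_span ?_
      rw [Set.mem_singleton_iff, pr', pr_mon, if_pos (hlen _)]
    · intro w hw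
      have h1 : u (n + 10) = w := by
        by_contra hcon
        apply hw
        unfold mon
        rw [MonoidAlgebra.coeff_single, Finsupp.single_apply, if_neg hcon]
      rw [← h1, hlen]
      omega
    · have h1 : (mon (u (n + 10)) : F) ∈ V' (n + 10) := by
        have := mon_mem_V (ZMod 2) (Fin 2) (u (n + 10))
        rwa [hlen] at this
      rw [hℓ _ _ h1]
      exact hlam2 _
  · intro i
    have hmem : ∀ f : F, GeF (M i) f → (∀ n, pr' n f ∈ S n) → f ∈ Jsub Rel ∧ ℓ f = 0 := by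
      intro f hf h
      have h1 : ∀ n, pr' n f ∈ Jsub Rel ∧ ℓ (pr' n f) = 0 := by
        intro n
        rcases Nat.eq_zero_or_pos n with rfl | hn
        · rw [pr_eq_zero hf (by have := hM i; omega), map_zero]
          exact ⟨zero_mem _, rfl⟩
        · exact hgen n hn _ (h n)
      exact ⟨mem_of_pr _ _ fun n => (h1 n).1, apply_eq_zero _ _ fun n => (h1 n).2⟩
    obtain ⟨h1, h2⟩ := hmem _ (hρσ i (M i)).1 fun n => (hSm i n).1
    obtain ⟨h3, h4⟩ := hmem _ (hρσ i (M i)).2 fun n => (hSm i n).2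
    exact ⟨M i, by have := hM i; omega, h1, h2, h3, h4⟩

end Pool.Agent.H787R3.CR
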